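import Pool.Agent.Lib.MP_531058_lc.RCA.Fin
import Pool.Agent.Lib.MP_531058_lc.EMC.Main

/-!
# The Erdős-Moser theorem implies the cohesiveness principle over `RCA₀`

Every model `(M, S)` of `RCA₀ + EM` satisfies `COH` (`M` may be nonstandard, in any universe).
All definitions used in the statement are in
`Pool/Agent/Lib/MP_531058_lc/RCA/Model.lean`.
-/

namespace Pool.Agent.Results.MP_531058_lc.EMProvesCOH

universe u

open Pool.Agent.Lib.MP_531058_lc.RCA

/-- `RCA₀ + EM ⊢ COH`: every model of `RCA₀` and of the Erdős-Moser theorem is a model of the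
cohesiveness principle. -/
theorem result (M : Type u) [Zero M] [One M] [Add M] [Mul M] [LT M] (S : Set (Set M))
    (h : RCA0 M S) (hEM : EM M S) : COH M S :=
  fin_rca (fun M _ s => EMC.core (M := M) s) S h hEM

end Pool.Agent.Results.MP_531058_lc.EMProvesCOH
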